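import Pool.Agent.H25.DL.Targets2

/-!
Module AH: completely multiplicative functions with given values at primes.
-/

set_option autoImplicit false

open Complex

namespace Pool.Agent.H48.DL

open Pool.Agent.H25.DL

/-- the completely multiplicative function with values `a` at primes -/
noncomputable def hf (a : ℕ → ℂ) (m : ℕ) : ℂ :=
  if m = 0 then 0 else m.factorization.prod fun p v => a p ^ v

lemma hf_zero (a : ℕ → ℂ) : hf a 0 = 0 := if_pos rfl

lemma hf_one (a : ℕ → ℂ) : hf a 1 = 1 := by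
  simp [hf]

lemma hf_mul (a : ℕ → ℂ) (x y : ℕ) : hf a (x * y) = hf a x * hf a y := by
  rcases eq_or_ne x 0 with rfl | hx
  · simp [hf_zero]
  rcases eq_or_ne y 0 with rfl | hy
  · simp [hf_zero]
  unfold hf
  rw [if_neg hx, if_neg hy, if_neg (mul_ne_zero hx hy), Nat.factorization_mul hx hy,
    Finsupp.prod_add_index']
  · intro p
    exact pow_zero _
  · intro p u v
    exact pow_add _ _ _

lemma hf_prime (a : ℕ → ℂ) {p : ℕ} (hp : p.Prime) : hf a p = a p := by
  unfold hf
  rw [if_neg hp.ne_zero, hp.factorization,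
    Finsupp.prod_single_index (h := fun p v => a p ^ v) (pow_zero _), pow_one]

lemma hf_le (a : ℕ → ℂ) (ha : ∀ p, ‖a p‖ ≤ 1) (m : ℕ) : ‖hf a m‖ ≤ 1 := by
  unfold hf
  split_ifs with h
  · simp
  · unfold Finsupp.prod
    rw [norm_prod]
    apply Finset.prod_le_one
    · intro p _
      exact norm_nonneg _
    · intro p _
      rw [norm_pow]
      exact pow_le_one₀ (norm_nonneg _) (ha p)

/-- `m ↦ h(m) m^{-s}` -/
noncomputable def hom (a : ℕ → ℂ) (s : ℂ) : ℕ →*₀ ℂ where
  toFun m := hf a m * (m : ℂ) ^ (-s)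
  map_zero' := by rw [hf_zero, zero_mul]
  map_one' := by simp [hf_one]
  map_mul' x y := by
    rw [hf_mul]
    push_cast
    rw [natCast_mul_natCast_cpow]
    ring

lemma summable_hom (a : ℕ → ℂ) (ha : ∀ p, ‖a p‖ ≤ 1) (s : ℂ) (hs : 1 < s.re) :
    Summable fun m => ‖hom a s m‖ := by
  have h1 : Summable fun m : ℕ => (m : ℝ) ^ (-s.re) :=
    Real.summable_nat_rpow.2 (by linarith)
  refine Summable.of_nonneg_of_le (fun m => norm_nonneg _) (fun m => ?_) h1
  change ‖hf a m * (m : ℂ) ^ (-s)‖ ≤ _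
  rcases Nat.eq_zero_or_pos m with rfl | hm
  · rw [hf_zero, zero_mul, norm_zero]
    exact Real.rpow_nonneg (Nat.cast_nonneg _) _
  · rw [norm_mul, norm_natCast_cpow_of_pos hm, neg_re]
    have := hf_le a ha m
    have h2 : 0 ≤ (m : ℝ) ^ (-s.re) := Real.rpow_nonneg (Nat.cast_nonneg _) _
    nlinarith

theorem ah : T_AH := by
  classical
  intro α hα
  set a : ℕ → ℂ := fun p => if h : p.Prime then α ⟨p, h⟩ else 0 with ha
  have ha1 : ∀ p, ‖a p‖ ≤ 1 := by
    intro p
    rw [ha]
    dsimp only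
    split_ifs with h
    · exact hα _
    · simp
  refine ⟨hf a, hf_zero a, hf_one a, hf_mul a, hf_le a ha1, fun s hs => ?_⟩
  have key := EulerProduct.eulerProduct_completely_multiplicative_hasProd
    (summable_hom a ha1 s hs)
  have h2 : (fun p : Nat.Primes => (1 - α p * ((p : ℕ) : ℂ) ^ (-s))⁻¹) =
      fun p : Nat.Primes => (1 - hom a s p)⁻¹ := by
    funext p
    change _ = (1 - hf a p * ((p : ℕ) : ℂ) ^ (-s))⁻¹
    rw [hf_prime a p.2]
    simp only [ha, dif_pos p.2]
    rfl
  rw [h2]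
  exact key

end Pool.Agent.H48.DL
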