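import Pool.Agent.H25.DL.Targets2

/-!
Module AF: an Artin `L`-function as an `LF`.
-/

set_option autoImplicit false

open Complex Filter Topology

namespace Pool.Agent.H48.DL

open Pool.Agent.H25.DL

lemma conj2 : (starRingEnd ℂ) 2 = 2 := map_ofNat _ 2

lemma gammaR_conj (s : ℂ) : (starRingEnd ℂ) (Gammaℝ s) = Gammaℝ ((starRingEnd ℂ) s) := by
  rw [Gammaℝ_def, Gammaℝ_def, map_mul, ← Complex.Gamma_conj]
  have h1 : (starRingEnd ℂ) ((Real.pi : ℂ) ^ (-s / 2)) =
      (Real.pi : ℂ) ^ (-(starRingEnd ℂ) s / 2) := by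
    have h := cpow_conj (Real.pi : ℂ) (-s / 2) (by
      rw [Complex.arg_ofReal_of_nonneg Real.pi_pos.le]
      exact Real.pi_pos.ne)
    rw [conj_ofReal] at h
    rw [← h]
    congr 1
    rw [map_div₀, map_neg, conj2]
  rw [h1]
  congr 2
  rw [map_div₀, conj2]

lemma cpow_conj_pos {c : ℝ} (hc : 0 < c) (z : ℂ) :
    (starRingEnd ℂ) ((c : ℂ) ^ z) = (c : ℂ) ^ ((starRingEnd ℂ) z) := by
  have h := cpow_conj (c : ℂ) z (by
    rw [Complex.arg_ofReal_of_nonneg hc.le]
    exact Real.pi_pos.ne)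
  rw [conj_ofReal] at h
  exact h.symm

lemma ne_of_im_ne {s : ℂ} (hs : s.im ≠ 0) (n : ℕ) : s ≠ -n := by
  intro h
  apply hs
  rw [h]
  simp

lemma gammaR_ne {s : ℂ} (hs : s.im ≠ 0) : Gammaℝ s ≠ 0 := by
  rw [Ne, Gammaℝ_eq_zero_iff]
  rintro ⟨n, hn⟩
  apply hs
  rw [hn]
  simp

lemma gammaR_one {s : ℂ} (hs : s.im ≠ 0) :
    Gammaℝ s = Gammaℂ s * Complex.cos (Real.pi * s / 2) * Gammaℝ (1 - s) := by
  have h := inv_Gammaℝ_one_sub (ne_of_im_ne hs)
  have h1 : Gammaℝ s ≠ 0 := gammaR_ne hs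
  have h2 : Gammaℝ (1 - s) ≠ 0 := gammaR_ne (by simpa using hs)
  field_simp at h
  rw [h]
  ring

lemma gammaR_two {s : ℂ} (hs : s.im ≠ 0) :
    Gammaℝ (s + 1) = Gammaℂ s * Complex.cos (Real.pi * (s - 1) / 2) * Gammaℝ (2 - s) := by
  have h := inv_Gammaℝ_two_sub (ne_of_im_ne hs)
  have h1 : Gammaℝ (s + 1) ≠ 0 := gammaR_ne (by simpa using hs)
  have h2 : Gammaℝ (2 - s) ≠ 0 := gammaR_ne (by simpa using hs)
  have h3 : Complex.cos (Real.pi * (s - 1) / 2) = Complex.sin (Real.pi * s / 2) := by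
    rw [← Complex.cos_sub_pi_div_two]
    congr 1
    ring
  rw [h3]
  field_simp at h
  rw [h]
  ring

lemma prod_split {n a b : ℕ} (h : a + b = n) (x y : ℂ) :
    (∏ j : Fin n, if (j : ℕ) < a then x else y) = x ^ a * y ^ b := by
  subst h
  rw [Fin.prod_univ_add]
  congr 1
  · simp
  · simp

/-- zeros of `E₂` are isolated -/
lemma isolated {E : ℂ → ℂ} (hE : Differentiable ℂ E) {p : ℂ} (hp : E p ≠ 0) (s : ℂ) :
    ∀ᶠ z in 𝓝[≠] s, E z ≠ 0 := by
  have han : AnalyticOnNhd ℂ E Set.univ := fun z _ => hE.analyticAt z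
  rcases (hE.analyticAt s).eventually_eq_zero_or_eventually_ne_zero with h | h
  · exfalso
    have := han.eqOn_zero_of_preconnected_of_eventuallyEq_zero isPreconnected_univ
      (Set.mem_univ s) h
    exact hp (this (Set.mem_univ p))
  · exact h

lemma tendsto_refl (s : ℂ) : Tendsto (fun z : ℂ => 1 - (starRingEnd ℂ) z) (𝓝[≠] s)
    (𝓝[≠] (1 - (starRingEnd ℂ) s)) := by
  rw [tendsto_nhdsWithin_iff]
  refine ⟨?_, ?_⟩
  · have : Continuous fun z : ℂ => 1 - (starRingEnd ℂ) z :=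
      continuous_const.sub Complex.continuous_conj
    exact this.continuousAt.tendsto.mono_left nhdsWithin_le_nhds
  · filter_upwards [self_mem_nhdsWithin] with z hz
    intro h
    apply hz
    have h1 : (starRingEnd ℂ) z = (starRingEnd ℂ) s := by
      have h' : 1 - (starRingEnd ℂ) z = 1 - (starRingEnd ℂ) s := h
      linear_combination -h'
    exact (starRingEnd ℂ).injective h1

lemma gammaC_diff {s : ℂ} (hs : 0 < s.im) : ContinuousAt Gammaℂ s := by
  have h1 : DifferentiableAt ℂ Gammaℂ s := by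
    unfold Gammaℂ
    have hG : DifferentiableAt ℂ Gamma s := by
      apply differentiableAt_Gamma
      intro n hn
      rw [hn] at hs
      simp at hs
    have h2 : DifferentiableAt ℂ (fun s : ℂ => (2 * (Real.pi : ℂ)) ^ (-s)) s := by
      apply DifferentiableAt.const_cpow
      · exact differentiableAt_id.neg
      · left
        simp [Real.pi_ne_zero]
    exact (h2.const_mul 2).mul hG
  exact h1.continuousAt

theorem af (h1 : T_AL) (h2 : T_AH) : T_AF := by
  intro R Λ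
  choose α hα1 hα2 using fun p => h1 R p
  choose h hz ho hm hle hprod using fun j : Fin R.dim => h2 (fun p => α p j) (fun p => hα1 p j)
  set κ : Fin R.dim → ℝ := fun j => if (j : ℕ) < Λ.a then 0 else 1 with hκ
  have hp0 : Λ.E₂ (2 + I) ≠ 0 := Λ.E₂_ne _ (by simp) (by simp)
  have hW : (starRingEnd ℂ) Λ.W * Λ.W = 1 := by
    rw [mul_comm, Complex.mul_conj, Complex.normSq_eq_norm_sq, Λ.norm_W]
    simp
  have hc0 : (Λ.cond : ℂ) ≠ 0 := by exact_mod_cast Λ.cond_pos.ne'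
  -- the product of Gamma factors
  have hK : ∀ s : ℂ, ∏ j, Gammaℂ s * Complex.cos (Real.pi * (s - κ j) / 2) =
      (Gammaℂ s * Complex.cos (Real.pi * s / 2)) ^ Λ.a *
        (Gammaℂ s * Complex.cos (Real.pi * (s - 1) / 2)) ^ Λ.b := by
    intro s
    rw [← prod_split Λ.a_add_b]
    refine Finset.prod_congr rfl fun j _ => ?_
    simp only [hκ]
    split_ifs with hj
    · simp
    · simp
  -- functional equation at generic points
  have hgen : ∀ s : ℂ, 0 < s.im → Λ.E₂ s ≠ 0 → Λ.E₂ (1 - (starRingEnd ℂ) s) ≠ 0 →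
      Λ.E₁ s * ((starRingEnd ℂ) Λ.W * cexp ((s - 1 / 2) * Real.log Λ.cond) *
        ∏ j, Gammaℂ s * Complex.cos (Real.pi * (s - κ j) / 2)) *
        (starRingEnd ℂ) (Λ.E₂ (1 - (starRingEnd ℂ) s)) =
      (starRingEnd ℂ) (Λ.E₁ (1 - (starRingEnd ℂ) s)) * Λ.E₂ s := by
    intro s hs hs1 hs2
    have hs0 : s.im ≠ 0 := hs.ne'
    have hf := Λ.functional s hs0 hs1 hs2
    rw [Λ.quot s hs1, Λ.quot _ hs2] at hf
    simp only [map_mul, map_pow, map_div₀] at hf
    rw [cpow_conj_pos Λ.cond_pos, gammaR_conj, gammaR_conj] at hf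
    have e1 : (starRingEnd ℂ) (1 - (starRingEnd ℂ) s) = 1 - s := by simp
    have e2 : (starRingEnd ℂ) (1 - (starRingEnd ℂ) s + 1) = 2 - s := by
      rw [map_add, e1, map_one]
      ring
    have e3 : (starRingEnd ℂ) ((1 - (starRingEnd ℂ) s) / 2) = (1 - s) / 2 := by
      rw [map_div₀, e1, conj2]
    rw [e1, e2, e3, gammaR_one hs0, gammaR_two hs0] at hf
    rw [hK]
    have n1 : Gammaℝ (1 - s) ≠ 0 := gammaR_ne (by simpa using hs0)
    have n2 : Gammaℝ (2 - s) ≠ 0 := gammaR_ne (by simpa using hs0)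
    have n3 : (Λ.cond : ℂ) ^ ((1 - s) / 2) ≠ 0 := by
      rw [Ne, Complex.cpow_eq_zero_iff]
      exact fun hh => hc0 hh.1
    have n4 : (starRingEnd ℂ) (Λ.E₂ (1 - (starRingEnd ℂ) s)) ≠ 0 := by
      rw [Ne, map_eq_zero]
      exact hs2
    have e4 : cexp ((s - 1 / 2) * Real.log Λ.cond) * (Λ.cond : ℂ) ^ ((1 - s) / 2) =
        (Λ.cond : ℂ) ^ (s / 2) := by
      rw [cpow_def_of_ne_zero hc0, cpow_def_of_ne_zero hc0, ← Complex.exp_add,
        ← Complex.ofReal_log Λ.cond_pos.le]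
      congr 1
      ring
    set X := (Gammaℂ s * Complex.cos (Real.pi * s / 2)) ^ Λ.a *
        (Gammaℂ s * Complex.cos (Real.pi * (s - 1) / 2)) ^ Λ.b with hX
    set E1' := (starRingEnd ℂ) (Λ.E₁ (1 - (starRingEnd ℂ) s)) with hE1'
    set E2' := (starRingEnd ℂ) (Λ.E₂ (1 - (starRingEnd ℂ) s)) with hE2'
    set ex := cexp ((s - 1 / 2) * Real.log Λ.cond) with hex
    have hf2 : (ex * X * (Λ.E₁ s / Λ.E₂ s)) * ((Λ.cond : ℂ) ^ ((1 - s) / 2) *
        Gammaℝ (1 - s) ^ Λ.a * Gammaℝ (2 - s) ^ Λ.b) =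
        (Λ.W * (E1' / E2')) * ((Λ.cond : ℂ) ^ ((1 - s) / 2) *
        Gammaℝ (1 - s) ^ Λ.a * Gammaℝ (2 - s) ^ Λ.b) := by
      rw [hX]
      rw [← e4, mul_pow, mul_pow _ (Gammaℝ (2 - s))] at hf
      linear_combination hf
    have n5 : (Λ.cond : ℂ) ^ ((1 - s) / 2) * Gammaℝ (1 - s) ^ Λ.a * Gammaℝ (2 - s) ^ Λ.b ≠ 0 :=
      mul_ne_zero (mul_ne_zero n3 (pow_ne_zero _ n1)) (pow_ne_zero _ n2)
    have hf3 := mul_right_cancel₀ n5 hf2
    have hf4 : ex * X * Λ.E₁ s * E2' = Λ.W * E1' * Λ.E₂ s := by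
      field_simp at hf3
      linear_combination hf3
    calc Λ.E₁ s * ((starRingEnd ℂ) Λ.W * ex * X) * E2'
        = (starRingEnd ℂ) Λ.W * (ex * X * Λ.E₁ s * E2') := by ring
      _ = ((starRingEnd ℂ) Λ.W * Λ.W) * (E1' * Λ.E₂ s) := by rw [hf4]; ring
      _ = E1' * Λ.E₂ s := by rw [hW, one_mul]
  refine ⟨{
    n := R.dim
    h := h
    h_zero := hz
    h_one := ho
    h_mul := hm
    h_le := hle
    κ := κ
    κ_mem := fun j => by
      simp only [hκ]
      split_ifs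
      · exact Or.inl rfl
      · exact Or.inr rfl
    A := Λ.cond
    A_pos := Λ.cond_pos
    ε := (starRingEnd ℂ) Λ.W
    norm_ε := by rw [RCLike.norm_conj, Λ.norm_W]
    num := Λ.E₁
    den := Λ.E₂
    diff := fun s _ => ⟨Λ.diff₁ s, Λ.diff₂ s⟩
    growth := fun b => by
      obtain ⟨C, hC, hb⟩ := Λ.growth b
      refine ⟨C, hC, fun s hs1 hs2 => ?_⟩
      have him : |s.im| = s.im := abs_of_pos (by linarith)
      have := hb s hs1 (by rw [him]; exact hs2)
      rwa [him] at this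
    den_ne := fun s h1 h2 => Λ.E₂_ne s h1 h2.ne'
    den_ge := by
      obtain ⟨c, hc, hb⟩ := Λ.E₂_ge
      exact ⟨c, hc, fun s h1 h2 => hb s h1 (h2.trans (le_abs_self _))⟩
    series := fun s hs1 hs2 => by
      have hE : Λ.E₂ s ≠ 0 := Λ.E₂_ne s hs1 hs2.ne'
      have hL : Λ.L s = ∏ j, ∑' m : ℕ, h j m * (m : ℂ) ^ (-s) := by
        have e1 := Λ.euler s hs1
        have e2 : HasProd (fun p : Nat.Primes => ∏ j, (1 - α p j * ((p : ℕ) : ℂ) ^ (-s))⁻¹)
            (∏ j, ∑' m : ℕ, h j m * (m : ℂ) ^ (-s)) :=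
          hasProd_prod fun j _ => hprod j s hs1
        have e3 : (fun p => R.euler p s) =
            fun p : Nat.Primes => ∏ j, (1 - α p j * ((p : ℕ) : ℂ) ^ (-s))⁻¹ := by
          funext p
          unfold ArtinRep.euler
          rw [hα2 p, Finset.prod_inv_distrib]
        rw [e3] at e1
        exact e1.unique e2
      rw [← hL, Λ.quot s hE, mul_div_cancel₀ _ hE]
    fe := fun s hs => by
      set f : ℂ → ℂ := fun s => Λ.E₁ s * ((starRingEnd ℂ) Λ.W *
        cexp ((s - 1 / 2) * Real.log Λ.cond) *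
        ∏ j, Gammaℂ s * Complex.cos (Real.pi * (s - κ j) / 2)) *
        (starRingEnd ℂ) (Λ.E₂ (1 - (starRingEnd ℂ) s)) with hf
      set g : ℂ → ℂ := fun s => (starRingEnd ℂ) (Λ.E₁ (1 - (starRingEnd ℂ) s)) * Λ.E₂ s with hg
      have hr : Continuous fun z : ℂ => 1 - (starRingEnd ℂ) z :=
        continuous_const.sub Complex.continuous_conj
      have hfc : ContinuousAt f s := by
        have hG := gammaC_diff hs
        have c1 : ContinuousAt (fun z : ℂ => ∏ j, Gammaℂ z *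
            Complex.cos (Real.pi * (z - κ j) / 2)) s := by
          refine tendsto_finsetProd _ fun j _ => ?_
          refine hG.mul ?_
          have : Continuous fun z : ℂ => Complex.cos (Real.pi * (z - κ j) / 2) := by fun_prop
          exact this.continuousAt
        have c2 : Continuous fun z : ℂ => (starRingEnd ℂ) Λ.W *
            cexp ((z - 1 / 2) * Real.log Λ.cond) := by fun_prop
        exact ((Λ.diff₁.continuous.continuousAt).mul (c2.continuousAt.mul c1)).mul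
          (Complex.continuous_conj.comp (Λ.diff₂.continuous.comp hr)).continuousAt
      have hgc : ContinuousAt g s :=
        ((Complex.continuous_conj.comp (Λ.diff₁.continuous.comp hr)).mul
          Λ.diff₂.continuous).continuousAt
      have hev : f =ᶠ[𝓝[≠] s] g := by
        have ho : {z : ℂ | 0 < z.im} ∈ 𝓝[≠] s :=
          nhdsWithin_le_nhds ((isOpen_lt continuous_const Complex.continuous_im).mem_nhds hs)
        filter_upwards [ho, isolated Λ.diff₂ hp0 s,
          (tendsto_refl s).eventually (isolated Λ.diff₂ hp0 (1 - (starRingEnd ℂ) s))]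
          with z hz1 hz2 hz3
        exact hgen z hz1 hz2 hz3
      have t1 : Tendsto f (𝓝[≠] s) (𝓝 (f s)) := hfc.tendsto.mono_left nhdsWithin_le_nhds
      have t2 : Tendsto g (𝓝[≠] s) (𝓝 (g s)) := hgc.tendsto.mono_left nhdsWithin_le_nhds
      exact tendsto_nhds_unique (t1.congr' hev) t2 }, rfl, rfl, rfl⟩

end Pool.Agent.H48.DL
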