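import Pool.Agent.H25.DL.Targets2

/-!
Module AL: characteristic polynomials of Frobenius elements on invariants.
-/

set_option autoImplicit false

open Complex

namespace Pool.Agent.H48.DL

open Pool.Agent.H25.DL

section

variable {V : Type} [AddCommGroup V] [Module ℂ V] [FiniteDimensional ℂ V]

/-- `det (1 - X A)` splits -/
lemma det_split (A : Module.End ℂ V) {n : ℕ} (hn : Module.finrank ℂ V = n) :
    ∃ α : Fin n → ℂ, (∀ j, A.HasEigenvalue (α j)) ∧
      ∀ X : ℂ, LinearMap.det (1 - X • A) = ∏ j, (1 - α j * X) := by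
  classical
  have hcard : (A.charpoly.roots.toList).length = n := by
    rw [Multiset.length_toList, IsAlgClosed.card_roots_eq_natDegree, LinearMap.charpoly_natDegree,
      hn]
  set α : Fin n → ℂ := fun j => (A.charpoly.roots.toList).get (Fin.cast hcard.symm j) with hα
  refine ⟨α, fun j => ?_, fun X => ?_⟩
  · rw [Module.End.hasEigenvalue_iff_isRoot_charpoly]
    have hmem : α j ∈ A.charpoly.roots := by
      rw [← Multiset.mem_toList]
      exact List.get_mem _ _
    exact (Polynomial.mem_roots'.1 hmem).2
  · have hprod : ∀ F : ℂ → ℂ, ∏ j, F (α j) = (A.charpoly.roots.map F).prod := by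
      intro F
      have h1 : (A.charpoly.roots.map F).prod = ((A.charpoly.roots.toList).map F).prod := by
        conv_lhs => rw [← Multiset.coe_toList A.charpoly.roots]
        rw [Multiset.map_coe, Multiset.prod_coe]
      rw [h1, ← List.prod_ofFn]
      congr 1
      apply List.ext_get
      · simp [hcard]
      · intro i h1 h2
        simp [hα]
    rcases eq_or_ne X 0 with rfl | hX
    · simp
    · have h1 : (1 - X • A : Module.End ℂ V) = X • (algebraMap ℂ (Module.End ℂ V) X⁻¹ - A) := by
        rw [smul_sub, Algebra.algebraMap_eq_smul_one, smul_smul, mul_inv_cancel₀ hX, one_smul]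
      rw [h1, LinearMap.det_smul, hn, ← LinearMap.eval_charpoly,
        (IsAlgClosed.splits A.charpoly).eval_eq_prod_roots_of_monic A.charpoly_monic,
        ← hprod (fun a => X⁻¹ - a)]
      have h2 : (X : ℂ) ^ n = ∏ _j : Fin n, X := by simp
      rw [h2, ← Finset.prod_mul_distrib]
      refine Finset.prod_congr rfl fun j _ => ?_
      field_simp

end

/-- eigenvalues of `rho F * avg` -/
lemma eig_le {G V : Type} [Group G] [Finite G] [AddCommGroup V] [Module ℂ V]
    [FiniteDimensional ℂ V] (rho : Representation ℂ G V) (F : G) (H : Subgroup G) (z : ℂ)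
    (hz : Module.End.HasEigenvalue
      (rho F * ((Nat.card H : ℂ)⁻¹ • ∑ᶠ g : H, rho (g : G)) : Module.End ℂ V) z) : ‖z‖ ≤ 1 := by
  classical
  have := Fintype.ofFinite G
  have := Fintype.ofFinite H
  set b := Module.finBasis ℂ V
  set N : V → ℝ := fun v => ∑ g : G, ‖b.equivFun (rho g v)‖ with hN
  have hadd : ∀ v w, N (v + w) ≤ N v + N w := by
    intro v w
    rw [hN]
    dsimp only
    rw [← Finset.sum_add_distrib]
    refine Finset.sum_le_sum fun g _ => ?_
    rw [map_add, map_add]
    exact norm_add_le _ _
  have hsmul : ∀ (c : ℂ) v, N (c • v) = ‖c‖ * N v := by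
    intro c v
    rw [hN]
    dsimp only
    rw [Finset.mul_sum]
    refine Finset.sum_congr rfl fun g _ => ?_
    rw [map_smul, map_smul, norm_smul]
  have hinv : ∀ (h : G) v, N (rho h v) = N v := by
    intro h v
    rw [hN]
    dsimp only
    rw [← Equiv.sum_comp (Equiv.mulRight h) (fun g => ‖b.equivFun (rho g v)‖)]
    refine Finset.sum_congr rfl fun g _ => ?_
    rw [Equiv.coe_mulRight, map_mul]
    rfl
  have hsum : ∀ (s : Finset H) v, N (∑ g ∈ s, rho (g : G) v) ≤ s.card * N v := by
    intro s v
    induction s using Finset.induction_on with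
    | empty => simp [hN]
    | insert a s ha ih =>
      rw [Finset.sum_insert ha, Finset.card_insert_of_notMem ha]
      refine (hadd _ _).trans ?_
      rw [hinv]
      push_cast
      linarith
  obtain ⟨v, hv⟩ := hz.exists_hasEigenvector
  have hv0 : v ≠ 0 := hv.2
  have hpos : 0 < N v := by
    rw [hN]
    apply Finset.sum_pos' (fun g _ => norm_nonneg _)
    refine ⟨1, Finset.mem_univ _, ?_⟩
    rw [map_one, norm_pos_iff]
    intro h
    apply hv0
    have h2 : b.equivFun v = 0 := h
    exact (LinearEquiv.map_eq_zero_iff _).1 h2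
  have heq := hv.apply_eq_smul
  have h1 : N (z • v) ≤ N v := by
    rw [← heq, Module.End.mul_apply, hinv, LinearMap.smul_apply, hsmul,
      finsum_eq_sum_of_fintype, LinearMap.sum_apply]
    have h3 := hsum Finset.univ v
    have hc : (0 : ℝ) < Nat.card H := Nat.cast_pos.2 Nat.card_pos
    rw [norm_inv, Complex.norm_natCast]
    rw [Finset.card_univ, ← Nat.card_eq_fintype_card] at h3
    rw [inv_mul_le_iff₀ hc]
    exact h3
  rw [hsmul] at h1
  nlinarith

theorem al : T_AL := by
  intro R p
  obtain ⟨α, h1, h2⟩ := det_split (R.fr p) (n := R.dim) rfl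
  exact ⟨α, fun j => eig_le R.rho (R.Fr p) (R.In p) (α j) (h1 j), h2⟩

end Pool.Agent.H48.DL
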