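import Pool.Agent.H25.DL.Targets2

/-!
Orders of products and of compositions with `wl`.
-/

set_option autoImplicit false

open Complex Filter Topology

namespace Pool.Agent.H48.DL

open Pool.Agent.H25.DL

lemma wl_im (r τ : ℝ) (s : ℂ) : (wl r τ s).im = r * s.im + τ := by
  simp [wl]

lemma hasDerivAt_wl (r τ : ℝ) (s : ℂ) : HasDerivAt (wl r τ) (r : ℂ) s := by
  have h1 : HasDerivAt (fun s : ℂ => 1 / 2 + (r : ℂ) * (s - 1 / 2) + τ * I) ((r : ℂ) * 1) s :=
    ((((hasDerivAt_id s).sub_const (1 / 2 : ℂ)).const_mul (r : ℂ)).const_add (1 / 2)).add_const _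
  rw [mul_one] at h1
  exact h1

lemma differentiable_wl (r τ : ℝ) : Differentiable ℂ (wl r τ) := fun s =>
  (hasDerivAt_wl r τ s).differentiableAt

lemma analyticAt_wl (r τ : ℝ) (s : ℂ) : AnalyticAt ℂ (wl r τ) s :=
  (differentiable_wl r τ).analyticAt s

lemma order_comp_wl (f : ℂ → ℂ) {r : ℝ} (hr : 0 < r) (τ : ℝ) (s : ℂ) :
    analyticOrderAt (fun x => f (wl r τ x)) s = analyticOrderAt f (wl r τ s) := by
  refine analyticOrderAt_comp_of_deriv_ne_zero (f := f) (analyticAt_wl r τ s) ?_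
  rw [(hasDerivAt_wl r τ s).deriv]
  exact_mod_cast hr.ne'

lemma order_prod {ι : Type*} (S : Finset ι) (f : ι → ℂ → ℂ) (z : ℂ)
    (h : ∀ i ∈ S, AnalyticAt ℂ (f i) z) :
    analyticOrderAt (fun x => ∏ i ∈ S, f i x) z = ∑ i ∈ S, analyticOrderAt (f i) z := by
  classical
  induction S using Finset.induction_on with
  | empty =>
    simp only [Finset.prod_empty, Finset.sum_empty]
    rw [analyticOrderAt_eq_zero]
    exact Or.inr one_ne_zero
  | insert a S ha ih =>
    have h1 : (fun x => ∏ i ∈ insert a S, f i x) = f a * fun x => ∏ i ∈ S, f i x := by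
      funext x
      rw [Finset.prod_insert ha]
      rfl
    have h2 : AnalyticAt ℂ (fun x => ∏ i ∈ S, f i x) z :=
      Finset.analyticAt_fun_prod S fun i hi => h i (Finset.mem_insert_of_mem hi)
    rw [h1, analyticOrderAt_mul (h a (Finset.mem_insert_self _ _)) h2, Finset.sum_insert ha,
      ih fun i hi => h i (Finset.mem_insert_of_mem hi)]

/-- upper half plane: analyticity from differentiability -/
lemma analyticAt_of_im_pos {f : ℂ → ℂ} (h : ∀ s : ℂ, 0 < s.im → DifferentiableAt ℂ f s) {s : ℂ}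
    (hs : 0 < s.im) : AnalyticAt ℂ f s := by
  have ho : IsOpen {s : ℂ | 0 < s.im} := isOpen_lt continuous_const Complex.continuous_im
  have hd : DifferentiableOn ℂ f {s : ℂ | 0 < s.im} := fun z hz =>
    (h z hz).differentiableWithinAt
  exact hd.analyticAt (ho.mem_nhds hs)

/-- order of the numerator -/
lemma order_N (F : Fam) (z : ℂ) (hp : ∀ i, 0 < (wl (F.p i).r (F.p i).τ z).im)
    (hq : ∀ j, 0 < (wl (F.q j).r (F.q j).τ z).im) :
    analyticOrderAt F.N z =
      (∑ i, analyticOrderAt (F.p i).L.num (wl (F.p i).r (F.p i).τ z)) +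
        ∑ j, analyticOrderAt (F.q j).L.den (wl (F.q j).r (F.q j).τ z) := by
  have h1 : ∀ i ∈ Finset.univ, AnalyticAt ℂ
      (fun s => (F.p i).L.num (wl (F.p i).r (F.p i).τ s)) z := fun i _ =>
    (analyticAt_of_im_pos (fun s hs => ((F.p i).L.diff s hs).1) (hp i)).comp
      (analyticAt_wl _ _ z)
  have h2 : ∀ j ∈ Finset.univ, AnalyticAt ℂ
      (fun s => (F.q j).L.den (wl (F.q j).r (F.q j).τ s)) z := fun j _ =>
    (analyticAt_of_im_pos (fun s hs => ((F.q j).L.diff s hs).2) (hq j)).comp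
      (analyticAt_wl _ _ z)
  have h3 : F.N = (fun s => ∏ i, (F.p i).L.num (wl (F.p i).r (F.p i).τ s)) *
      fun s => ∏ j, (F.q j).L.den (wl (F.q j).r (F.q j).τ s) := rfl
  rw [h3, analyticOrderAt_mul (Finset.analyticAt_fun_prod _ h1) (Finset.analyticAt_fun_prod _ h2),
    order_prod _ _ _ h1, order_prod _ _ _ h2]
  congr 1
  · exact Finset.sum_congr rfl fun i _ => order_comp_wl _ (F.p i).r_pos _ _
  · exact Finset.sum_congr rfl fun j _ => order_comp_wl _ (F.q j).r_pos _ _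

/-- order of the denominator -/
lemma order_M (F : Fam) (z : ℂ) (hp : ∀ i, 0 < (wl (F.p i).r (F.p i).τ z).im)
    (hq : ∀ j, 0 < (wl (F.q j).r (F.q j).τ z).im) :
    analyticOrderAt F.M z =
      (∑ i, analyticOrderAt (F.p i).L.den (wl (F.p i).r (F.p i).τ z)) +
        ∑ j, analyticOrderAt (F.q j).L.num (wl (F.q j).r (F.q j).τ z) := by
  have h1 : ∀ i ∈ Finset.univ, AnalyticAt ℂ
      (fun s => (F.p i).L.den (wl (F.p i).r (F.p i).τ s)) z := fun i _ =>
    (analyticAt_of_im_pos (fun s hs => ((F.p i).L.diff s hs).2) (hp i)).comp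
      (analyticAt_wl _ _ z)
  have h2 : ∀ j ∈ Finset.univ, AnalyticAt ℂ
      (fun s => (F.q j).L.num (wl (F.q j).r (F.q j).τ s)) z := fun j _ =>
    (analyticAt_of_im_pos (fun s hs => ((F.q j).L.diff s hs).1) (hq j)).comp
      (analyticAt_wl _ _ z)
  have h3 : F.M = (fun s => ∏ i, (F.p i).L.den (wl (F.p i).r (F.p i).τ s)) *
      fun s => ∏ j, (F.q j).L.num (wl (F.q j).r (F.q j).τ s) := rfl
  rw [h3, analyticOrderAt_mul (Finset.analyticAt_fun_prod _ h1) (Finset.analyticAt_fun_prod _ h2),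
    order_prod _ _ _ h1, order_prod _ _ _ h2]
  congr 1
  · exact Finset.sum_congr rfl fun i _ => order_comp_wl _ (F.p i).r_pos _ _
  · exact Finset.sum_congr rfl fun j _ => order_comp_wl _ (F.q j).r_pos _ _

/-- eventually all points are in the upper half plane -/
lemma exists_height {ι : Type*} [Fintype ι] (r τ : ι → ℝ) (μ : ℝ) (hμ : 0 < μ)
    (hr : ∀ i, μ ≤ r i) : ∃ T₁ : ℝ, ∀ T : ℝ, T₁ ≤ T → ∀ z : ℂ, T / 4 ≤ z.im → ∀ i,
      0 < (wl (r i) (τ i) z).im := by
  refine ⟨4 * ((∑ i, |τ i| + 1) / μ), fun T hT z hz i => ?_⟩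
  have h1 : (∑ i, |τ i| + 1) / μ ≤ z.im := by linarith
  have h2 : |τ i| ≤ ∑ i, |τ i| :=
    Finset.single_le_sum (f := fun i => |τ i|) (fun _ _ => abs_nonneg _) (Finset.mem_univ i)
  have h3 : 0 ≤ ∑ i, |τ i| := Finset.sum_nonneg fun _ _ => abs_nonneg _
  have h4 : ∑ i, |τ i| + 1 ≤ z.im * μ := by
    rwa [div_le_iff₀ hμ] at h1
  have h5 : 0 ≤ z.im := by
    have : 0 ≤ (∑ i, |τ i| + 1) / μ := by positivity
    linarith
  have h6 : z.im * μ ≤ r i * z.im := by
    rw [mul_comm]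
    exact mul_le_mul_of_nonneg_right (hr i) h5
  rw [wl_im]
  have := neg_abs_le (τ i)
  linarith

end Pool.Agent.H48.DL
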