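import Pool.Agent.H48.DL.Ord

/-!
Module RE: the theorem for Dirichlet `L`-functions.
-/

set_option autoImplicit false

open Complex

namespace Pool.Agent.H48.DL

open Pool.Agent.H25.DL Pool.Agent.H23.GLH

theorem re (hFI : T_FI) (hDI : T_DI) : T_RE := by
  intro k m ψ r τ χ ρ σ μ hμ hr hρ hd0 hdμ
  choose L hLn hLnum hLden using hDI
  let F : Fam :=
    { I := Fin k
      J := Fin m
      fI := inferInstance
      fJ := inferInstance
      p := fun i => ⟨L (ψ i), r i, τ i, hμ.trans_le (hr i)⟩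
      q := fun j => ⟨L (χ j), ρ j, σ j, hμ.trans_le (hρ j)⟩ }
  have hFd : F.d = ∑ i, r i - ∑ j, ρ j := by
    change ∑ i, r i * ((L (ψ i)).n : ℝ) - ∑ j, ρ j * ((L (χ j)).n : ℝ) = _
    congr 1
    · exact Finset.sum_congr rfl fun i _ => by rw [hLn]; simp
    · exact Finset.sum_congr rfl fun i _ => by rw [hLn]; simp
  obtain ⟨A, T₀, hA, h⟩ := hFI F μ (by rw [hFd]; exact hd0) (by rw [hFd]; exact hdμ) hr hρ
  obtain ⟨T₁, hT₁⟩ := exists_height r τ μ hμ hr
  obtain ⟨T₂, hT₂⟩ := exists_height ρ σ μ hμ hρ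
  refine ⟨A, max T₀ (max T₁ T₂), hA, fun T hT => ?_⟩
  obtain ⟨Z, hZ, hz⟩ := h T ((le_max_left _ _).trans hT)
  refine ⟨Z, hZ, fun z hzZ => ?_⟩
  obtain ⟨h1, h2, h3⟩ := hz z hzZ
  refine ⟨h1, h2, ?_⟩
  have hp : ∀ i, 0 < (wl (r i) (τ i) z).im :=
    hT₁ T (((le_max_left _ _).trans (le_max_right _ _)).trans hT) z h1
  have hq : ∀ j, 0 < (wl (ρ j) (σ j) z).im :=
    hT₂ T (((le_max_right _ _).trans (le_max_right _ _)).trans hT) z h1
  have hN := order_N F z hp hq
  have hM := order_M F z hp hq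
  have hone : ∀ w : ℂ, analyticOrderAt (fun _ : ℂ => (1 : ℂ)) w = 0 := fun w =>
    analyticOrderAt_eq_zero.2 (Or.inr one_ne_zero)
  have hN' : analyticOrderAt F.N z = ∑ i, analyticOrderAt (ψ i).L (wl (r i) (τ i) z) := by
    rw [hN]
    change (∑ i, analyticOrderAt (L (ψ i)).num (wl (r i) (τ i) z)) +
      ∑ j, analyticOrderAt (L (χ j)).den (wl (ρ j) (σ j) z) = _
    simp only [hLnum, hLden, hone, Finset.sum_const_zero, add_zero]
  have hM' : analyticOrderAt F.M z = ∑ j, analyticOrderAt (χ j).L (wl (ρ j) (σ j) z) := by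
    rw [hM]
    change (∑ i, analyticOrderAt (L (ψ i)).den (wl (r i) (τ i) z)) +
      ∑ j, analyticOrderAt (L (χ j)).num (wl (ρ j) (σ j) z) = _
    simp only [hLnum, hLden, hone, Finset.sum_const_zero, zero_add]
  have h4 : analyticOrderAt F.N z < analyticOrderAt F.M z := h3
  rw [hN', hM'] at h4
  exact h4

end Pool.Agent.H48.DL
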