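import Pool.Agent.H48.DL.Ord
import Pool.Agent.H48.DL.AF

/-!
Module AR: the theorem for Artin `L`-functions.
-/

set_option autoImplicit false

open Complex Filter Topology

namespace Pool.Agent.H48.DL

open Pool.Agent.H25.DL

lemma series_ne (h : ℕ → ℂ) (h0 : h 0 = 0) (h1 : h 1 = 1) (hm : ∀ a b, h (a * b) = h a * h b)
    (hle : ∀ a, ‖h a‖ ≤ 1) {s : ℂ} (hs : 1 < s.re) : ∑' m : ℕ, h m * (m : ℂ) ^ (-s) ≠ 0 := by
  let f : ℕ →*₀ ℂ :=
    { toFun := fun m => h m * (m : ℂ) ^ (-s)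
      map_zero' := by simp [h0]
      map_one' := by simp [h1]
      map_mul' := fun x y => by
        rw [hm]
        push_cast
        rw [natCast_mul_natCast_cpow]
        ring }
  have hsum : Summable fun m => ‖f m‖ := by
    have h2 : Summable fun m : ℕ => (m : ℝ) ^ (-s.re) :=
      Real.summable_nat_rpow.2 (by linarith)
    refine Summable.of_nonneg_of_le (fun m => norm_nonneg _) (fun m => ?_) h2
    change ‖h m * (m : ℂ) ^ (-s)‖ ≤ _
    rcases Nat.eq_zero_or_pos m with rfl | hm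
    · rw [h0, zero_mul, norm_zero]
      exact Real.rpow_nonneg (Nat.cast_nonneg _) _
    · rw [norm_mul, norm_natCast_cpow_of_pos hm, neg_re]
      have := hle m
      have h3 : 0 ≤ (m : ℝ) ^ (-s.re) := Real.rpow_nonneg (Nat.cast_nonneg _) _
      nlinarith
  have key := EulerProduct.exp_tsum_primes_log_eq_tsum hsum
  have h4 : ∑' m : ℕ, h m * (m : ℂ) ^ (-s) = ∑' m : ℕ, f m := rfl
  rw [h4, ← key]
  exact Complex.exp_ne_zero _

lemma order_ne_top {E : ℂ → ℂ} (hE : Differentiable ℂ E) {p : ℂ} (hp : E p ≠ 0) (w : ℂ) :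
    analyticOrderAt E w ≠ ⊤ := by
  intro h
  rw [analyticOrderAt_eq_top] at h
  obtain ⟨z, hz1, hz2⟩ := ((isolated hE hp w).and (h.filter_mono nhdsWithin_le_nhds)).exists
  exact hz1 hz2

lemma mero {R : ArtinRep} (Λ : ArtinL R) {p q : ℂ} (hp : Λ.E₁ p ≠ 0) (hq : Λ.E₂ q ≠ 0) (w : ℂ) :
    meromorphicOrderAt Λ.L w =
      (((analyticOrderNatAt Λ.E₁ w : ℤ) - (analyticOrderNatAt Λ.E₂ w : ℤ) : ℤ) : WithTop ℤ) := by
  have h1 : Λ.L =ᶠ[𝓝[≠] w] Λ.E₁ * Λ.E₂⁻¹ := by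
    filter_upwards [isolated Λ.diff₂ hq w] with z hz
    rw [Λ.quot z hz, Pi.mul_apply, Pi.inv_apply, div_eq_mul_inv]
  have a1 := Λ.diff₁.analyticAt w
  have a2 := Λ.diff₂.analyticAt w
  have o1 := Nat.cast_analyticOrderNatAt (order_ne_top Λ.diff₁ hp w)
  have o2 := Nat.cast_analyticOrderNatAt (order_ne_top Λ.diff₂ hq w)
  rw [meromorphicOrderAt_congr h1, meromorphicOrderAt_mul a1.meromorphicAt a2.meromorphicAt.inv,
    meromorphicOrderAt_inv, a1.meromorphicOrderAt_eq, a2.meromorphicOrderAt_eq, ← o1, ← o2,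
    ENat.map_natCast, ENat.map_natCast]
  rfl

lemma sum_coe {ι : Type*} (S : Finset ι) (f : ι → ℤ) :
    ∑ i ∈ S, ((f i : ℤ) : WithTop ℤ) = ((∑ i ∈ S, f i : ℤ) : WithTop ℤ) := by
  classical
  induction S using Finset.induction_on with
  | empty => simp
  | insert a S ha ih => rw [Finset.sum_insert ha, Finset.sum_insert ha, ih, WithTop.coe_add]

theorem ar (hFI : T_FI) (hAF : T_AF) : T_AR := by
  intro k m R Λ r τ S M ρ σ μ hμ hr hρ hd0 hdμ
  choose L hLn hLnum hLden using hAF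
  have hE2 : ∀ (R : ArtinRep) (Λ : ArtinL R), Λ.E₂ (2 + I) ≠ 0 := fun R Λ =>
    Λ.E₂_ne _ (by simp) (by simp)
  have hE1 : ∀ (R : ArtinRep) (Λ : ArtinL R), Λ.E₁ (2 + I) ≠ 0 := fun R Λ => by
    have h1 := (L R Λ).series (2 + I) (by simp) (by simp)
    rw [hLnum, hLden] at h1
    rw [h1]
    refine mul_ne_zero (hE2 R Λ) (Finset.prod_ne_zero_iff.2 fun j _ => ?_)
    exact series_ne _ ((L R Λ).h_zero j) ((L R Λ).h_one j) ((L R Λ).h_mul j) ((L R Λ).h_le j)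
      (by simp)
  let F : Fam :=
    { I := Fin k
      J := Fin m
      fI := inferInstance
      fJ := inferInstance
      p := fun i => ⟨L (R i) (Λ i), r i, τ i, hμ.trans_le (hr i)⟩
      q := fun j => ⟨L (S j) (M j), ρ j, σ j, hμ.trans_le (hρ j)⟩ }
  have hFd : F.d = ∑ i, r i * (R i).dim - ∑ j, ρ j * (S j).dim := by
    change ∑ i, r i * ((L (R i) (Λ i)).n : ℝ) - ∑ j, ρ j * ((L (S j) (M j)).n : ℝ) = _
    simp only [hLn]
  obtain ⟨A, T₀, hA, h⟩ := hFI F μ (by rw [hFd]; exact hd0) (by rw [hFd]; exact hdμ) hr hρ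
  obtain ⟨T₁, hT₁⟩ := exists_height r τ μ hμ hr
  obtain ⟨T₂, hT₂⟩ := exists_height ρ σ μ hμ hρ
  refine ⟨A, max T₀ (max T₁ T₂), hA, fun T hT => ?_⟩
  obtain ⟨Z, hZ, hz⟩ := h T ((le_max_left _ _).trans hT)
  refine ⟨Z, hZ, fun z hzZ => ?_⟩
  obtain ⟨h1, h2, h3⟩ := hz z hzZ
  refine ⟨h1, h2, ?_⟩
  have hp : ∀ i, 0 < (wl (r i) (τ i) z).im :=
    hT₁ T (((le_max_left _ _).trans (le_max_right _ _)).trans hT) z h1
  have hq : ∀ j, 0 < (wl (ρ j) (σ j) z).im :=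
    hT₂ T (((le_max_right _ _).trans (le_max_right _ _)).trans hT) z h1
  have hN := order_N F z hp hq
  have hM := order_M F z hp hq
  have hcast1 : ∀ (R : ArtinRep) (Λ : ArtinL R) (w : ℂ),
      analyticOrderAt Λ.E₁ w = (analyticOrderNatAt Λ.E₁ w : ℕ∞) := fun R Λ w =>
    (Nat.cast_analyticOrderNatAt (order_ne_top Λ.diff₁ (hE1 R Λ) w)).symm
  have hcast2 : ∀ (R : ArtinRep) (Λ : ArtinL R) (w : ℂ),
      analyticOrderAt Λ.E₂ w = (analyticOrderNatAt Λ.E₂ w : ℕ∞) := fun R Λ w =>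
    (Nat.cast_analyticOrderNatAt (order_ne_top Λ.diff₂ (hE2 R Λ) w)).symm
  have hN' : analyticOrderAt F.N z =
      ((∑ i, analyticOrderNatAt (Λ i).E₁ (wl (r i) (τ i) z) +
        ∑ j, analyticOrderNatAt (M j).E₂ (wl (ρ j) (σ j) z) : ℕ) : ℕ∞) := by
    rw [hN]
    change (∑ i, analyticOrderAt (L (R i) (Λ i)).num (wl (r i) (τ i) z)) +
      ∑ j, analyticOrderAt (L (S j) (M j)).den (wl (ρ j) (σ j) z) = _
    simp only [hLnum, hLden, hcast1, hcast2]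
    push_cast
    rfl
  have hM' : analyticOrderAt F.M z =
      ((∑ i, analyticOrderNatAt (Λ i).E₂ (wl (r i) (τ i) z) +
        ∑ j, analyticOrderNatAt (M j).E₁ (wl (ρ j) (σ j) z) : ℕ) : ℕ∞) := by
    rw [hM]
    change (∑ i, analyticOrderAt (L (R i) (Λ i)).den (wl (r i) (τ i) z)) +
      ∑ j, analyticOrderAt (L (S j) (M j)).num (wl (ρ j) (σ j) z) = _
    simp only [hLnum, hLden, hcast1, hcast2]
    push_cast
    rfl
  have h4 : analyticOrderAt F.N z < analyticOrderAt F.M z := h3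
  rw [hN', hM', ENat.natCast_lt_natCast] at h4
  have e1 : ∑ i, meromorphicOrderAt (Λ i).L (wl (r i) (τ i) z) =
      ((∑ i, ((analyticOrderNatAt (Λ i).E₁ (wl (r i) (τ i) z) : ℤ) -
        (analyticOrderNatAt (Λ i).E₂ (wl (r i) (τ i) z) : ℤ)) : ℤ) : WithTop ℤ) := by
    rw [← sum_coe]
    exact Finset.sum_congr rfl fun i _ => mero (Λ i) (hE1 _ _) (hE2 _ _) _
  have e2 : ∑ j, meromorphicOrderAt (M j).L (wl (ρ j) (σ j) z) =
      ((∑ j, ((analyticOrderNatAt (M j).E₁ (wl (ρ j) (σ j) z) : ℤ) -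
        (analyticOrderNatAt (M j).E₂ (wl (ρ j) (σ j) z) : ℤ)) : ℤ) : WithTop ℤ) := by
    rw [← sum_coe]
    exact Finset.sum_congr rfl fun j _ => mero (M j) (hE1 _ _) (hE2 _ _) _
  rw [e1, e2, WithTop.coe_lt_coe, Finset.sum_sub_distrib, Finset.sum_sub_distrib]
  have h5 : (∑ i, (analyticOrderNatAt (Λ i).E₁ (wl (r i) (τ i) z) : ℤ) +
        ∑ j, (analyticOrderNatAt (M j).E₂ (wl (ρ j) (σ j) z) : ℤ)) <
      (∑ i, (analyticOrderNatAt (Λ i).E₂ (wl (r i) (τ i) z) : ℤ) +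
        ∑ j, (analyticOrderNatAt (M j).E₁ (wl (ρ j) (σ j) z) : ℤ)) := by
    exact_mod_cast h4
  linarith

end Pool.Agent.H48.DL
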